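import Pool.Agent.W564.SC.Defs

/-!
Project SC, part BP: the case of a periodic torus orbit.
-/

open scoped Manifold ContDiff Topology
open Filter Set Metric

universe u

namespace Pool.Agent.W298.SC

open Pool.Agent.H718R2.G Pool.Agent.W564.SC

lemma norm_le_of_coord {k : ℕ} (x : V k) (h : ∀ j, |x j| ≤ 1) : ‖x‖ ≤ Real.sqrt k := by
  rw [EuclideanSpace.norm_eq]
  refine Real.sqrt_le_sqrt ?_
  calc ∑ i, ‖x i‖ ^ 2 ≤ ∑ _i : Fin k, (1 : ℝ) := by
        refine Finset.sum_le_sum fun i _ => ?_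
        rw [Real.norm_eq_abs]
        exact pow_le_one₀ (abs_nonneg _) (h i)
    _ = k := by simp

theorem bp (h : S_NBHD.{u}) (h2 : S_GC.{u}) (h3 : S_TF.{u}) : S_BP.{u} := by
  intro k n N _ _ _ _ _ r hr R hR F hF z a β ha hz U hU hFU
  obtain ⟨χ, hχ⟩ := h2 n N z
  obtain ⟨H, hH, hH0, hfam⟩ := h3 k n N r R hR F
  obtain ⟨k', hk1, hkr, κ, hκ, hclose⟩ := h n N r hr (V k) H hfam χ z hχ U hU (by rw [hH0]; exact hFU)
  -- H α is in U for small α
  have hin : ∀ α : V k, ‖α‖ < κ → H α ∈ U := by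
    intro α hα
    have h1 := hclose α (fun _ => 0) (Diffeomorph.refl (𝓡 n) N r) hα
      ⟨contDiff_const, fun _ _ => rfl, fun j _ x => by
        have : iteratedFDeriv ℝ j (fun _ : V n => (0 : V n)) x = 0 := by
          rw [iteratedFDeriv_fun_zero]
          rfl
        rw [this, norm_zero]
        exact hκ.le⟩
      ⟨fun y hy => ⟨hy, by simp⟩, fun y _ => rfl⟩
    have h4 : (H α).trans (Diffeomorph.refl (𝓡 n) N r) = H α := by
      ext y
      rfl
    rwa [h4] at h1
  -- iterates
  have hit : ∀ (α : V k) (i : ℕ) (y : N), (H α)^[i] y = R ((i : ℝ) • α) (F^[i] y) := by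
    intro α i
    induction i with
    | zero =>
      intro y
      simp [hR.zero]
    | succ i ih =>
      intro y
      rw [Function.iterate_succ_apply', ih, hH, Function.iterate_succ_apply', ← hR.add, hF]
      congr 1
      push_cast
      rw [add_smul, one_smul, add_comm]
  have hFR : ∀ (i : ℕ) (γ : V k) (y : N), F^[i] (R γ y) = R γ (F^[i] y) := by
    intro i γ
    induction i with
    | zero => intro y; rfl
    | succ i ih =>
      intro y
      rw [Function.iterate_succ_apply, hF, ih, Function.iterate_succ_apply]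
  have hFj : ∀ j : ℕ, F^[a * j] z = R ((j : ℝ) • β) z := by
    intro j
    induction j with
    | zero => simp [hR.zero]
    | succ j ih =>
      rw [mul_add, mul_one, Function.iterate_add_apply, hz, hFR, ih, ← hR.add]
      congr 1
      push_cast
      rw [add_smul, one_smul, add_comm]
  have ha' : (0 : ℝ) < a := by exact_mod_cast ha
  obtain ⟨j, hj⟩ := exists_nat_gt (Real.sqrt k / (a * κ))
  have hj0 : (0 : ℝ) < j := lt_of_le_of_lt (by positivity) hj
  have hj1 : 1 ≤ j := by exact_mod_cast hj0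
  set l : V k := WithLp.toLp 2 (fun i => ((round ((j : ℝ) * β i) : ℤ) : ℝ)) with hl
  set α : V k := ((a : ℝ) * j)⁻¹ • (l - (j : ℝ) • β) with hα
  have hnorm : ‖α‖ < κ := by
    have h5 : ‖l - (j : ℝ) • β‖ ≤ Real.sqrt k := by
      refine norm_le_of_coord _ fun i => ?_
      have h6 : (l - (j : ℝ) • β) i = ((round ((j : ℝ) * β i) : ℤ) : ℝ) - (j : ℝ) * β i := rfl
      rw [h6, abs_sub_comm]
      exact (abs_sub_round _).trans (by norm_num)
    rw [hα, norm_smul, Real.norm_eq_abs, abs_of_pos (by positivity)]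
    have h7 : Real.sqrt k < a * κ * j := by
      rw [div_lt_iff₀ (by positivity)] at hj
      linarith
    calc ((a : ℝ) * j)⁻¹ * ‖l - (j : ℝ) • β‖ ≤ ((a : ℝ) * j)⁻¹ * Real.sqrt k :=
          mul_le_mul_of_nonneg_left h5 (by positivity)
      _ < ((a : ℝ) * j)⁻¹ * (a * κ * j) := mul_lt_mul_of_pos_left h7 (by positivity)
      _ = κ := by field_simp
  refine ⟨H α, hin α hnorm, a * j, Nat.mul_pos ha hj1, ?_⟩
  rw [hit, hFj, ← hR.add]
  have h8 : ((a * j : ℕ) : ℝ) • α + (j : ℝ) • β = l := by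
    rw [hα, smul_smul]
    push_cast
    rw [mul_inv_cancel₀ (by positivity), one_smul, sub_add_cancel]
  rw [h8, hR.free]
  intro i
  exact ⟨round ((j : ℝ) * β i), rfl⟩

end Pool.Agent.W298.SC
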