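import Pool.Agent.W564.SC.Defs

/-!
Project SC, part PAIR: choice of the two times.
-/

open scoped Manifold ContDiff Topology
open Filter Set Metric MeasureTheory

namespace Pool.Agent.W298.SC

open Pool.Agent.H718R2.G Pool.Agent.W564.SC

lemma pig {D : ℕ} (hD : 1 ≤ D) (A : Finset ℕ) (s : ℕ → V D) (x : V D) {a : ℝ} (ha : 0 < a)
    (hA : 2 ≤ A.card) (hin : ∀ l ∈ A, ‖s l - x‖ ≤ a) :
    ∃ l ∈ A, ∃ l' ∈ A, l < l' ∧ ‖s l - s l'‖ ^ D * A.card ≤ (4 * a) ^ D := by
  classical
  have hne : A.offDiag.Nonempty := by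
    rw [← Finset.card_pos, Finset.offDiag_card]
    have : A.card < A.card * A.card := by nlinarith
    omega
  obtain ⟨⟨l, l'⟩, hll, hmin⟩ := Finset.exists_min_image A.offDiag
    (fun p : ℕ × ℕ => ‖s p.1 - s p.2‖) hne
  rw [Finset.mem_offDiag] at hll
  obtain ⟨hl, hl', hneq⟩ := hll
  simp only at hl hl' hneq hmin
  set δ := ‖s l - s l'‖ with hδ
  have hδ0 : 0 ≤ δ := norm_nonneg _
  have hδa : δ ≤ 2 * a := by
    have : s l - s l' = (s l - x) - (s l' - x) := by abel
    rw [hδ, this]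
    refine (norm_sub_le _ _).trans ?_
    have := hin l hl
    have := hin l' hl'
    linarith
  have key : δ ^ D * A.card ≤ (4 * a) ^ D := by
    rcases hδ0.eq_or_lt with h0 | hpos
    · rw [← h0, zero_pow (by omega), zero_mul]
      positivity
    · have hdisj : (A : Set ℕ).PairwiseDisjoint (fun l => ball (s l) (δ / 2)) := by
        intro p hp q hq hpq
        refine ball_disjoint_ball ?_
        have := hmin (p, q) (Finset.mem_offDiag.2 ⟨hp, hq, hpq⟩)
        simp only at this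
        rw [dist_eq_norm]
        linarith
      have hsub : (⋃ l ∈ A, ball (s l) (δ / 2)) ⊆ closedBall x (2 * a) := by
        intro z hz
        rw [mem_iUnion₂] at hz
        obtain ⟨p, hp, hz⟩ := hz
        rw [mem_closedBall]
        rw [mem_ball] at hz
        have h1 := hin p hp
        rw [← dist_eq_norm] at h1
        have := dist_triangle z (s p) x
        linarith
      have h1 := measure_mono (μ := (volume : Measure (V D))) hsub
      rw [measure_biUnion_finset hdisj (fun _ _ => measurableSet_ball),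
        Measure.addHaar_closedBall _ _ (by positivity : (0 : ℝ) ≤ 2 * a)] at h1
      have h2 : ∀ p ∈ A, volume (ball (s p) (δ / 2)) =
          ENNReal.ofReal ((δ / 2) ^ D) * volume (ball (0 : V D) 1) := by
        intro p _
        rw [Measure.addHaar_ball_of_pos _ _ (by positivity), finrank_euclideanSpace_fin]
      rw [Finset.sum_congr rfl h2, Finset.sum_const, nsmul_eq_mul, finrank_euclideanSpace_fin,
        ← mul_assoc] at h1
      have hω0 : volume (ball (0 : V D) 1) ≠ 0 := (measure_ball_pos volume _ one_pos).ne'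
      have hω1 : volume (ball (0 : V D) 1) ≠ ⊤ := measure_ball_lt_top.ne
      have h3 : (A.card : ENNReal) * ENNReal.ofReal ((δ / 2) ^ D) ≤
          ENNReal.ofReal ((2 * a) ^ D) := by
        by_contra hcon
        push Not at hcon
        have := ENNReal.mul_lt_mul_left hω0 hω1 hcon
        exact absurd h1 (not_le.2 this)
      rw [← ENNReal.ofReal_natCast, ← ENNReal.ofReal_mul (by positivity),
        ENNReal.ofReal_le_ofReal_iff (by positivity)] at h3
      have e1 : δ ^ D = 2 ^ D * (δ / 2) ^ D := by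
        rw [← mul_pow]; congr 1; ring
      have e2 : (4 * a) ^ D = 2 ^ D * (2 * a) ^ D := by
        rw [← mul_pow]; congr 1; ring
      rw [e1, e2]
      have := mul_le_mul_of_nonneg_left h3 (by positivity : (0 : ℝ) ≤ 2 ^ D)
      linarith
  rcases lt_or_gt_of_ne hneq with h | h
  · exact ⟨l, hl, l', hl', h, key⟩
  · refine ⟨l', hl', l, hl, h, ?_⟩
    rw [norm_sub_rev]
    exact key

theorem pair : S_PAIR := by
  classical
  intro D k hD c c' hc hc' hc'2
  refine ⟨2 ^ (D + k) * 4 ^ D * c' ^ (D + k) / c, by positivity, ?_⟩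
  set C : ℝ := 2 ^ (D + k) * 4 ^ D * c' ^ (D + k) / c with hC
  have hCpos : 0 < C := by positivity
  intro ρ hρ hρ1 M T s hM h0T hMT hsT hs0 hsM
  set P : ℕ → Prop := fun n => ∃ i j : ℕ, i ∈ T ∧ j ∈ T ∧ i < j ∧ j ≤ M ∧ j = i + n ∧
    ‖s i - s j‖ ^ D ≤ C * (2 * ρ - ‖s i‖) ^ (D + k) with hP
  have hex : ∃ n, P n := by
    refine ⟨M, 0, M, h0T, hMT, by omega, le_rfl, by omega, hsM.trans ?_⟩
    refine mul_le_mul_of_nonneg_left (pow_le_pow_left₀ hρ.le ?_ _) hCpos.le
    linarith
  obtain ⟨i, j, hi, hj, hij, hjM, hjn, hd⟩ := Nat.find_spec hex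
  refine ⟨i, j, hi, hj, hij, hjM, hd, ?_⟩
  by_contra hcon
  push Not at hcon
  set d := 2 * ρ - ‖s i‖ with hdd
  have hd0 : 0 < d := by
    have := hsT i hi
    rw [hdd]; linarith
  set L : Set ℕ := {l | l ∈ T ∧ i < l ∧ l < j ∧ ‖s l - s i‖ < c' * d} with hL
  have hLf : L.Finite := (Set.finite_Iio j).subset fun l hl => hl.2.2.1
  have hLc : L.ncard = hLf.toFinset.card := Set.ncard_eq_toFinset_card _ hLf
  have hiL : i ∉ hLf.toFinset := by
    rw [Set.Finite.mem_toFinset]
    rintro ⟨-, h, -⟩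
    omega
  set A := insert i hLf.toFinset with hA
  have hAc : A.card = L.ncard + 1 := by
    rw [hA, Finset.card_insert_of_notMem hiL, hLc]
  have hcpos : 0 < c * (c' * d)⁻¹ ^ k := by positivity
  have hLpos : 0 < (L.ncard : ℝ) := hcpos.trans hcon
  have hL1 : 1 ≤ L.ncard := by exact_mod_cast hLpos
  obtain ⟨l, hl, l', hl', hll, hk⟩ := pig hD A s (s i) (a := c' * d) (by positivity)
    (by omega) (by
      intro p hp
      rcases Finset.mem_insert.1 hp with rfl | hp
      · rw [sub_self, norm_zero]; positivity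
      · rw [Set.Finite.mem_toFinset] at hp
        exact hp.2.2.2.le)
  have hmem : ∀ p ∈ A, p ∈ T ∧ i ≤ p ∧ p < j ∧ ‖s p - s i‖ ≤ c' * d := by
    intro p hp
    rcases Finset.mem_insert.1 hp with rfl | hp
    · exact ⟨hi, le_rfl, hij, by rw [sub_self, norm_zero]; positivity⟩
    · rw [Set.Finite.mem_toFinset] at hp
      exact ⟨hp.1, hp.2.1.le, hp.2.2.1, hp.2.2.2.le⟩
  obtain ⟨t1, t2, t3, t4⟩ := hmem l hl
  obtain ⟨r1, r2, r3, r4⟩ := hmem l' hl'
  refine Nat.find_min hex (m := l' - l) (by omega) ⟨l, l', t1, r1, hll, by omega, by omega, ?_⟩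
  rw [hAc] at hk
  push_cast at hk
  have hx0 : 0 ≤ ‖s l - s l'‖ ^ D := by positivity
  have h1 : ‖s l - s l'‖ ^ D * (c * (c' * d)⁻¹ ^ k) ≤ (4 * (c' * d)) ^ D := by
    refine le_trans (mul_le_mul_of_nonneg_left ?_ hx0) hk
    linarith
  have hcd : 0 < c' * d := by positivity
  have h2 : ‖s l - s l'‖ ^ D ≤ 4 ^ D * (c' * d) ^ (D + k) / c := by
    rw [le_div_iff₀ hc]
    have h3 := mul_le_mul_of_nonneg_right h1 (pow_pos hcd k).le
    have e1 : ‖s l - s l'‖ ^ D * (c * (c' * d)⁻¹ ^ k) * (c' * d) ^ k = ‖s l - s l'‖ ^ D * c := by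
      rw [inv_pow]
      field_simp
    have e2 : (4 * (c' * d)) ^ D * (c' * d) ^ k = 4 ^ D * (c' * d) ^ (D + k) := by
      rw [mul_pow, pow_add]
      ring
    rw [e1, e2] at h3
    exact h3
  refine h2.trans ?_
  have h4 : d / 2 ≤ 2 * ρ - ‖s l‖ := by
    have h5 : ‖s l‖ ≤ ‖s i‖ + c' * d := by
      have : s l = s i + (s l - s i) := by abel
      rw [this]
      exact (norm_add_le _ _).trans (by linarith)
    have h6 : c' * d ≤ 1 / 2 * d := mul_le_mul_of_nonneg_right hc'2 hd0.le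
    linarith
  have h7 : C * (d / 2) ^ (D + k) ≤ C * (2 * ρ - ‖s l‖) ^ (D + k) :=
    mul_le_mul_of_nonneg_left (pow_le_pow_left₀ (by positivity) h4 _) hCpos.le
  refine le_trans (le_of_eq ?_) h7
  rw [hC, div_pow, mul_pow]
  field_simp

end Pool.Agent.W298.SC
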