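import Pool.Agent.W564.SC.Defs

/-!
Project SC, part RET: return times to small neighbourhoods of a nonperiodic torus orbit.
-/

open scoped Manifold ContDiff Topology
open Filter Set Metric

universe u

namespace Pool.Agent.W298.SC

open Pool.Agent.H718R2.G Pool.Agent.W564.SC

theorem ret : S_RET.{u} := by
  intro k n N _ _ _ _ _ R hR F hF hcomm z hz χ hχ m
  -- a compact fundamental domain
  set K : Set (V k) := {γ | ∀ j, γ j ∈ Icc (0 : ℝ) 1} with hK
  have hKc : IsCompact K := by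
    have h1 : IsCompact (Set.pi univ (fun _ : Fin k => Icc (0 : ℝ) 1)) :=
      isCompact_univ_pi fun _ => isCompact_Icc
    have h2 : K = (EuclideanSpace.equiv (Fin k) ℝ).symm ''
        (Set.pi univ (fun _ : Fin k => Icc (0 : ℝ) 1)) := by
      ext γ
      constructor
      · intro hγ
        exact ⟨EuclideanSpace.equiv (Fin k) ℝ γ, fun j _ => hγ j, by simp⟩
      · rintro ⟨f, hf, rfl⟩ j
        exact hf j (mem_univ j)
    rw [h2]
    exact h1.image (EuclideanSpace.equiv (Fin k) ℝ).symm.continuous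
  have hred : ∀ γ : V k, ∃ γ' ∈ K, ∀ y, R γ y = R γ' y := by
    intro γ
    refine ⟨WithLp.toLp 2 (fun j => Int.fract (γ j)), fun j => ⟨Int.fract_nonneg _,
      (Int.fract_lt_one _).le⟩, fun y => ?_⟩
    set l : V k := WithLp.toLp 2 (fun j => ((⌊γ j⌋ : ℤ) : ℝ)) with hl
    have h1 : γ = WithLp.toLp 2 (fun j => Int.fract (γ j)) + l := by
      ext j
      change γ j = Int.fract (γ j) + ((⌊γ j⌋ : ℤ) : ℝ)
      rw [Int.fract_add_floor]
    have h2 : R l y = y := (hR.free l y).2 fun j => ⟨⌊γ j⌋, rfl⟩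
    conv_lhs => rw [h1, hR.add, h2]
  have hRc : Continuous (fun q : V k × N => R q.1 q.2) := hR.smooth.continuous
  -- no returns near `z`
  have hev : ∀ i ∈ Finset.Icc 1 m, ∀ᶠ p : N × N in 𝓝 (z, z), ∀ γ ∈ K,
      R γ (F^[i] p.1) ≠ p.2 := by
    intro i hi
    refine hKc.eventually_forall_of_forall_eventually fun γ _ => ?_
    have hc : Continuous (fun q : (N × N) × V k => R q.2 (F^[i] q.1.1)) :=
      hRc.comp (continuous_snd.prodMk ((hF.iterate i).comp (continuous_fst.comp continuous_fst)))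
    have hop : IsOpen {q : (N × N) × V k | R q.2 (F^[i] q.1.1) ≠ q.1.2} :=
      isOpen_ne_fun hc (continuous_snd.comp continuous_fst)
    refine hop.mem_nhds ?_
    change R γ (F^[i] z) ≠ z
    intro h1
    refine hz i (Finset.mem_Icc.1 hi).1 (-γ) ?_
    have h2 : R (-γ) (R γ (F^[i] z)) = F^[i] z := by
      rw [← hR.add, neg_add_cancel, hR.zero]
    rw [← h2, h1]
  have hev2 : ∀ᶠ p : N × N in 𝓝 (z, z), ∀ i ∈ Finset.Icc 1 m, ∀ γ ∈ K,
      R γ (F^[i] p.1) ≠ p.2 := (Filter.eventually_all_finset (Finset.Icc 1 m)).2 hev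
  rw [nhds_prod_eq] at hev2
  obtain ⟨W, hW, hWp⟩ := (Filter.eventually_prod_self_iff
    (r := fun a b => ∀ i ∈ Finset.Icc 1 m, ∀ γ ∈ K, R γ (F^[i] a) ≠ b)).1 hev2
  have h0 : (0 : V n) ∈ χ.target := by
    rw [← hχ.zero]
    exact χ.map_source hχ.src
  have hz0 : χ.symm 0 = z := by
    rw [← hχ.zero]
    exact χ.left_inv hχ.src
  have hsymm : Tendsto χ.symm (𝓝 0) (𝓝 z) := by
    have := χ.symm.continuousAt (x := (0 : V n)) h0
    rw [ContinuousAt, hz0] at this
    exact this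
  obtain ⟨ρ, hρ, hρW⟩ := Metric.mem_nhds_iff.1 (hsymm hW)
  refine ⟨ρ, hρ, fun y hy hyρ i hi1 him γ hγ => ?_⟩
  by_contra hlt
  push Not at hlt
  have hyW : y ∈ W := by
    have h1 : χ y ∈ ball (0 : V n) ρ := by rwa [mem_ball_zero_iff]
    have := hρW h1
    rwa [mem_preimage, χ.left_inv hy] at this
  have hyW' : R γ (F^[i] y) ∈ W := by
    have h1 : χ (R γ (F^[i] y)) ∈ ball (0 : V n) ρ := by rwa [mem_ball_zero_iff]
    have := hρW h1
    rwa [mem_preimage, χ.left_inv hγ] at this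
  obtain ⟨γ', hγ', he⟩ := hred γ
  exact hWp y hyW _ hyW' i (Finset.mem_Icc.2 ⟨hi1, him⟩) γ' hγ' (he _).symm

end Pool.Agent.W298.SC
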